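import Mathlib

/-!
# Ordered Turán number of strongly non-nested matchings (MP_19ad23_co)

The conjecture asks whether, for all `n ≥ 2k`, both the largest number of edges of an ordered graph
on `n` vertices without a non-nested `k`-matching and the largest number of edges of an ordered
graph on `n` vertices without a strongly non-nested `k`-matching are equal to `(k - 1) n`.
This is false: for `k = 4` and every `n ≥ 9` there is an ordered graph on `n` vertices with
`3 n + 1` edges and without a strongly non-nested `4`-matching.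
-/

set_option autoImplicit false

namespace Pool.Agent.Results.MP_19ad23_co.StrongMatchingsExceed

/-- Two edges `e`, `f` (pairs whose first entry is the smaller end) are *separated* if the
intervals `[e.1, e.2]` and `[f.1, f.2]` are disjoint. -/
def Separated {α : Type} [LT α] (e f : α × α) : Prop := e.2 < f.1 ∨ f.2 < e.1

/-- Two edges *cross*: `e.1 < f.1 < e.2 < f.2` or `f.1 < e.1 < f.2 < e.2`. -/
def Crossing {α : Type} [LT α] (e f : α × α) : Prop :=
  (e.1 < f.1 ∧ f.1 < e.2 ∧ e.2 < f.2) ∨ (f.1 < e.1 ∧ e.1 < f.2 ∧ f.2 < e.2)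

/-- `M` lists the edges of a `k`-matching of the ordered graph `G`: the pair `M i` is an edge of
`G` written with its smaller end first, and different edges have no common end. -/
structure IsMatching {n k : ℕ} (G : SimpleGraph (Fin n)) (M : Fin k → Fin n × Fin n) : Prop where
  lt : ∀ i, (M i).1 < (M i).2
  adj : ∀ i, G.Adj (M i).1 (M i).2
  disj : ∀ i j, i ≠ j →
    (M i).1 ≠ (M j).1 ∧ (M i).1 ≠ (M j).2 ∧ (M i).2 ≠ (M j).1 ∧ (M i).2 ≠ (M j).2

/-- Every two edges of the matching cross or are separated (no two are nested). -/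
def NonNested {n k : ℕ} (M : Fin k → Fin n × Fin n) : Prop :=
  ∀ i j, i ≠ j → Crossing (M i) (M j) ∨ Separated (M i) (M j)

/-- The matching can be partitioned into crossing matchings (the classes of `c`), two edges of
different classes being separated. -/
def StronglyNonNested {n k : ℕ} (M : Fin k → Fin n × Fin n) : Prop :=
  ∃ c : Fin k → Fin k, ∀ i j, i ≠ j →
    (c i = c j → Crossing (M i) (M j)) ∧ (c i ≠ c j → Separated (M i) (M j))

/-- The largest number of edges of an ordered graph on `n` vertices that contains no non-nested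
`k`-matching. -/
noncomputable def exNonNested (n k : ℕ) : ℕ :=
  sSup {m | ∃ G : SimpleGraph (Fin n), G.edgeSet.ncard = m ∧
    ¬ ∃ M : Fin k → Fin n × Fin n, IsMatching G M ∧ NonNested M}

/-- The largest number of edges of an ordered graph on `n` vertices that contains no strongly
non-nested `k`-matching. -/
noncomputable def exStronglyNonNested (n k : ℕ) : ℕ :=
  sSup {m | ∃ G : SimpleGraph (Fin n), G.edgeSet.ncard = m ∧
    ¬ ∃ M : Fin k → Fin n × Fin n, IsMatching G M ∧ StronglyNonNested M}

/-! ### The graph -/

/-- The 28 edges of the ordered graph on 9 vertices. -/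
def E : List (ℕ × ℕ) :=
  [(0, 1), (0, 2), (0, 3), (0, 4), (0, 5), (0, 6), (0, 7), (0, 8), (1, 2), (1, 3), (1, 4), (1, 5),
    (1, 6), (1, 7), (1, 8), (2, 3), (2, 4), (2, 5), (2, 8), (3, 4), (3, 5), (3, 6), (3, 7), (3, 8),
    (4, 5), (5, 6), (5, 7), (5, 8)]

instance (e f : ℕ × ℕ) : Decidable (Separated e f) := by unfold Separated; infer_instance

instance (e f : ℕ × ℕ) : Decidable (Crossing e f) := by unfold Crossing; infer_instance

/-- The finite check: four edges of `E`, sorted by their first ends, pairwise crossing or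
separated, never satisfy the transitivity conditions of a strongly non-nested matching. -/
theorem check : ∀ a ∈ E, ∀ b ∈ E, a.1 < b.1 → (Crossing a b ∨ Separated a b) →
    ∀ c ∈ E, b.1 < c.1 → (Crossing a c ∨ Separated a c) → (Crossing b c ∨ Separated b c) →
    (Crossing a b → Crossing b c → Crossing a c) →
    ∀ d ∈ E, c.1 < d.1 → (Crossing a d ∨ Separated a d) → (Crossing b d ∨ Separated b d) →
    (Crossing c d ∨ Separated c d) → (Crossing b c → Crossing c d → Crossing b d) →
    (Crossing a c → Crossing c d → Crossing a d) →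
    (Crossing a b → Crossing b d → Crossing a d) → False := by
  decide +kernel

/-- The relation defining the graph on `n` vertices. -/
def rel {n : ℕ} (i j : Fin n) : Prop :=
  (i.val, j.val) ∈ E ∨ (i.val < 3 ∧ 9 ≤ j.val)

/-- The ordered graph on `n` vertices: the 28 edges of `E` on the first nine vertices, and every
later vertex is joined to the first three. -/
def graph (n : ℕ) : SimpleGraph (Fin n) := SimpleGraph.fromRel rel

theorem E_prop : ∀ e ∈ E, e.1 < e.2 ∧ e.2 < 9 := by decide

theorem rel_lt {n : ℕ} {i j : Fin n} (h : rel i j) : i < j := by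
  rcases h with h | h
  · exact (E_prop _ h).1
  · exact Fin.lt_def.mpr (by omega)

theorem rel_of_adj {n : ℕ} {i j : Fin n} (hij : i < j) (h : (graph n).Adj i j) : rel i j := by
  rw [graph, SimpleGraph.fromRel_adj] at h
  rcases h.2 with h | h
  · exact h
  · exact absurd (rel_lt h) (not_lt.mpr hij.le)

theorem cross_or {n k : ℕ} {M : Fin k → Fin n × Fin n} (h : StronglyNonNested M) {i j : Fin k}
    (hij : i ≠ j) : Crossing (M i) (M j) ∨ Separated (M i) (M j) := by
  obtain ⟨c, hc⟩ := h
  by_cases h : c i = c j
  · exact Or.inl ((hc i j hij).1 h)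
  · exact Or.inr ((hc i j hij).2 h)

theorem not_both {n : ℕ} {e f : Fin n × Fin n} (he : e.1 < e.2) (hf : f.1 < f.2)
    (h1 : Crossing e f) (h2 : Separated e f) : False := by
  unfold Crossing at h1
  unfold Separated at h2
  rw [Fin.lt_def] at *
  simp only [Fin.lt_def] at *
  omega

theorem cross_trans {n k : ℕ} {M : Fin k → Fin n × Fin n} (hlt : ∀ i, (M i).1 < (M i).2)
    (h : StronglyNonNested M) {i j l : Fin k} (hij : i ≠ j) (hjl : j ≠ l) (hil : i ≠ l)
    (h1 : Crossing (M i) (M j)) (h2 : Crossing (M j) (M l)) : Crossing (M i) (M l) := by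
  obtain ⟨c, hc⟩ := h
  have e1 : c i = c j := by
    by_contra h
    exact not_both (hlt i) (hlt j) h1 ((hc i j hij).2 h)
  have e2 : c j = c l := by
    by_contra h
    exact not_both (hlt j) (hlt l) h2 ((hc j l hjl).2 h)
  exact (hc i l hil).1 (e1.trans e2)

/-- No edge of a strongly non-nested `4`-matching of the graph reaches a vertex `≥ 9`. -/
theorem all_small {n : ℕ} {M : Fin 4 → Fin n × Fin n} (hM : IsMatching (graph n) M)
    (h : StronglyNonNested M) (i : Fin 4) : (M i).2.val < 9 := by
  by_contra hi
  push Not at hi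
  have key : ∀ j, (M j).1.val < 3 := by
    intro j
    have hi' := rel_of_adj (hM.lt i) (hM.adj i)
    have hi1 : (M i).1.val < 3 := by
      rcases hi' with h' | h'
      · have := (E_prop _ h').2
        dsimp only at this
        omega
      · exact h'.1
    by_cases hij : i = j
    · exact hij ▸ hi1
    have hj' := rel_of_adj (hM.lt j) (hM.adj j)
    have hj1 : (M j).1.val < 3 ∨ (M j).2.val < 9 := by
      rcases hj' with h' | h'
      · exact Or.inr (E_prop _ h').2
      · exact Or.inl h'.1
    have hlt := hM.lt j
    have hlti := hM.lt i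
    have hc := cross_or h hij
    unfold Crossing Separated at hc
    simp only [Fin.lt_def] at hc hlt hlti
    omega
  have hinj : Function.Injective (fun j : Fin 4 => (⟨(M j).1.val, key j⟩ : Fin 3)) := by
    intro a b hab
    by_contra hne
    have := (hM.disj a b hne).1
    apply this
    apply Fin.ext
    exact congrArg (fun x : Fin 3 => x.val) hab
  have := Fintype.card_le_of_injective _ hinj
  simp at this

theorem no_matching (n : ℕ) : ¬ ∃ M : Fin 4 → Fin n × Fin n,
    IsMatching (graph n) M ∧ StronglyNonNested M := by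
  rintro ⟨M, hM, hS⟩
  -- sort the edges by their first ends
  have hinj : Function.Injective (fun j => (M j).1) := by
    intro a b hab
    by_contra hne
    exact (hM.disj a b hne).1 hab
  obtain ⟨σ, hσ⟩ : ∃ σ : Equiv.Perm (Fin 4), StrictMono (fun j => (M (σ j)).1) := by
    refine ⟨Tuple.sort (fun j => (M j).1), ?_⟩
    have hmono := Tuple.monotone_sort (fun j => (M j).1)
    exact hmono.strictMono_of_injective (hinj.comp (Tuple.sort _).injective)
  have hE : ∀ j, ((M j).1.val, (M j).2.val) ∈ E := by
    intro j
    rcases rel_of_adj (hM.lt j) (hM.adj j) with h | h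
    · exact h
    · have := all_small hM hS j
      omega
  -- transfer to natural numbers
  let N : Fin 4 → ℕ × ℕ := fun j => ((M (σ j)).1.val, (M (σ j)).2.val)
  have hC : ∀ i j : Fin 4, Crossing (N i) (N j) ↔ Crossing (M (σ i)) (M (σ j)) := by
    intro i j
    rfl
  have hSp : ∀ i j : Fin 4, Separated (N i) (N j) ↔ Separated (M (σ i)) (M (σ j)) := by
    intro i j
    rfl
  have hor : ∀ i j : Fin 4, i ≠ j → Crossing (N i) (N j) ∨ Separated (N i) (N j) := by
    intro i j hij
    rw [hC, hSp]
    exact cross_or hS (fun h => hij (σ.injective h))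
  have htr : ∀ i j l : Fin 4, i ≠ j → j ≠ l → i ≠ l → Crossing (N i) (N j) →
      Crossing (N j) (N l) → Crossing (N i) (N l) := by
    intro i j l hij hjl hil h1 h2
    rw [hC] at *
    exact cross_trans hM.lt hS (fun h => hij (σ.injective h)) (fun h => hjl (σ.injective h))
      (fun h => hil (σ.injective h)) h1 h2
  have hlt : ∀ i j : Fin 4, i < j → (N i).1 < (N j).1 := fun i j hij => hσ hij
  exact check (N 0) (hE _) (N 1) (hE _) (hlt 0 1 (by decide)) (hor 0 1 (by decide))
    (N 2) (hE _) (hlt 1 2 (by decide)) (hor 0 2 (by decide)) (hor 1 2 (by decide))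
    (htr 0 1 2 (by decide) (by decide) (by decide))
    (N 3) (hE _) (hlt 2 3 (by decide)) (hor 0 3 (by decide)) (hor 1 3 (by decide))
    (hor 2 3 (by decide)) (htr 1 2 3 (by decide) (by decide) (by decide))
    (htr 0 2 3 (by decide) (by decide) (by decide))
    (htr 0 1 3 (by decide) (by decide) (by decide))

/-! ### Counting the edges -/

theorem card_edges (n : ℕ) (hn : 9 ≤ n) : 3 * n + 1 ≤ (graph n).edgeSet.ncard := by
  classical
  have hEl : E.length = 28 := by decide
  have hEn : E.Nodup := by decide
  let f : Fin 28 ⊕ Fin (n - 9) × Fin 3 → Fin n × Fin n := fun x =>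
    match x with
    | Sum.inl i => (⟨(E.get (i.cast hEl.symm)).1,
        lt_of_lt_of_le ((E_prop _ (List.get_mem E _)).1.trans (E_prop _ (List.get_mem E _)).2) hn⟩,
        ⟨(E.get (i.cast hEl.symm)).2, lt_of_lt_of_le (E_prop _ (List.get_mem E _)).2 hn⟩)
    | Sum.inr p => (⟨p.2.val, by omega⟩, ⟨9 + p.1.val, by omega⟩)
  have hf : ∀ x, rel (f x).1 (f x).2 := by
    rintro (i | p)
    · left
      exact List.get_mem E _
    · right
      exact ⟨p.2.isLt, Nat.le_add_right 9 _⟩
  have hfinj : Function.Injective f := by
    rintro (i | p) (j | q) h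
    · have h1 : (E.get (i.cast hEl.symm)) = (E.get (j.cast hEl.symm)) := by
        have h2 := congrArg (fun z : Fin n × Fin n => (z.1.val, z.2.val)) h
        exact h2
      have h3 := (List.Nodup.get_inj_iff hEn).mp h1
      have h4 : i = j := by
        apply Fin.ext
        exact congrArg (fun z : Fin E.length => z.val) h3
      rw [h4]
    · exfalso
      have h2 : (E.get (i.cast hEl.symm)).2 = 9 + q.1.val :=
        congrArg (fun z : Fin n × Fin n => z.2.val) h
      have := (E_prop _ (List.get_mem E (i.cast hEl.symm))).2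
      omega
    · exfalso
      have h2 : 9 + p.1.val = (E.get (j.cast hEl.symm)).2 :=
        congrArg (fun z : Fin n × Fin n => z.2.val) h
      have := (E_prop _ (List.get_mem E (j.cast hEl.symm))).2
      omega
    · have h1 : p.2.val = q.2.val := congrArg (fun z : Fin n × Fin n => z.1.val) h
      have h2 : 9 + p.1.val = 9 + q.1.val := congrArg (fun z : Fin n × Fin n => z.2.val) h
      have h3 : p = q := Prod.ext (Fin.ext (by omega)) (Fin.ext h1)
      rw [h3]
  let g : Fin 28 ⊕ Fin (n - 9) × Fin 3 → Sym2 (Fin n) := fun x => s((f x).1, (f x).2)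
  have hg : ∀ x, g x ∈ (graph n).edgeSet := by
    intro x
    change (graph n).Adj _ _
    rw [graph, SimpleGraph.fromRel_adj]
    exact ⟨(rel_lt (hf x)).ne, Or.inl (hf x)⟩
  have hginj : Function.Injective g := by
    intro x y h
    have h' : s((f x).1, (f x).2) = s((f y).1, (f y).2) := h
    rw [Sym2.eq_iff] at h'
    rcases h' with ⟨h1, h2⟩ | ⟨h1, h2⟩
    · exact hfinj (Prod.ext h1 h2)
    · exfalso
      have a1 := rel_lt (hf x)
      have a2 := rel_lt (hf y)
      rw [h1, h2] at a1
      exact absurd a1 (not_lt.mpr a2.le)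
  have hcard : (Set.range g).ncard = 3 * n + 1 := by
    rw [Set.ncard_eq_toFinset_card', Set.toFinset_range, Finset.card_image_of_injective _ hginj,
      Finset.card_univ, Fintype.card_sum, Fintype.card_prod, Fintype.card_fin, Fintype.card_fin,
      Fintype.card_fin]
    omega
  rw [← hcard]
  apply Set.ncard_le_ncard _ (Set.toFinite _)
  rintro _ ⟨x, rfl⟩
  exact hg x

theorem bdd (n k : ℕ) : BddAbove {m | ∃ G : SimpleGraph (Fin n), G.edgeSet.ncard = m ∧
    ¬ ∃ M : Fin k → Fin n × Fin n, IsMatching G M ∧ StronglyNonNested M} := by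
  refine ⟨(Set.univ : Set (Sym2 (Fin n))).ncard, ?_⟩
  rintro m ⟨G, rfl, -⟩
  exact Set.ncard_le_ncard (Set.subset_univ _) (Set.toFinite _)

theorem lower (n : ℕ) (hn : 9 ≤ n) : 3 * n + 1 ≤ exStronglyNonNested n 4 :=
  (card_edges n hn).trans (le_csSup (bdd n 4) ⟨graph n, rfl, no_matching n⟩)

/-- **The conjecture is false.** For `k = 4` and every `n ≥ 9` the largest number of edges of an
ordered graph on `n` vertices without a strongly non-nested `k`-matching is larger than
`(k - 1) n`; in particular the conjectured equalities do not hold for all `n ≥ 2 k`. -/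
theorem result :
    (∀ n : ℕ, 9 ≤ n → (4 - 1) * n < exStronglyNonNested n 4) ∧
    ¬ ∀ n k : ℕ, 1 ≤ k → 2 * k ≤ n →
      exNonNested n k = (k - 1) * n ∧ exStronglyNonNested n k = (k - 1) * n := by
  refine ⟨fun n hn => ?_, fun h => ?_⟩
  · have := lower n hn
    omega
  · have h1 := (h 9 4 (by norm_num) (by norm_num)).2
    have h2 := lower 9 le_rfl
    omega

end Pool.Agent.Results.MP_19ad23_co.StrongMatchingsExceed
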